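import Mathlib
import Pool.Agent.H16.HarbK

set_option autoImplicit false

namespace Pool.Agent.Results.MP_82795f_nt.TwiceFermat

theorem result :
    Set.Infinite {c : ℕ | 2 ≤ c ∧ ∀ m : ℕ, (2 ^ 2 ^ m + 1).Prime → 3 < 2 ^ 2 ^ m + 1 →
      ∀ k : ℕ, k = 2 * (2 ^ 2 ^ m + 1) → ∀ n : ℕ, (k : ℚ) / (c + 1) ≤ n → (n : ℚ) ≤ k / c →
        n ∣ n.choose (k - c * n)} ∧
    ¬ (∀ c : ℕ, 0 < c → 3 ∣ c → ∀ m : ℕ, (2 ^ 2 ^ m + 1).Prime → 3 < 2 ^ 2 ^ m + 1 →
      ∀ k : ℕ, k = 2 * (2 ^ 2 ^ m + 1) → ∀ n : ℕ, (k : ℚ) / (c + 1) ≤ n → (n : ℚ) ≤ k / c →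
        n ∣ n.choose (k - c * n)) := by
  constructor
  · refine Set.infinite_of_injective_forall_mem (f := fun t : ℕ => 2 ^ (t + 3) - 1) ?_ ?_
    · intro a b h
      have ha : 0 < 2 ^ (a + 3) := by positivity
      have hb : 0 < 2 ^ (b + 3) := by positivity
      have h' : 2 ^ (a + 3) = 2 ^ (b + 3) := by simp only at h; omega
      have := Nat.pow_right_injective (le_refl 2) h'
      omega
    · intro t
      have h8 : 8 ≤ 2 ^ (t + 3) := by
        calc 8 = 2 ^ 3 := by norm_num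
          _ ≤ 2 ^ (t + 3) := Nat.pow_le_pow_right (by norm_num) (by omega)
      refine ⟨by omega, ?_⟩
      rintro m hq - k rfl n h1 h2
      obtain ⟨c, hc⟩ : ∃ c, 2 ^ (t + 3) = c + 1 := ⟨2 ^ (t + 3) - 1, by omega⟩
      have hc' : 2 ^ (t + 3) - 1 = c := by omega
      have hc0 : (0 : ℚ) < c := by exact_mod_cast (show 0 < c by omega)
      apply Pool.Agent.H16.HarbK.main (t + 3) (2 ^ m) n (by omega) hq
      · rw [hc'] at h1
        rw [div_le_iff₀ (by positivity)] at h1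
        rw [hc, mul_comm (c + 1) n]
        exact_mod_cast h1
      · rw [hc'] at h2 ⊢
        rw [le_div_iff₀ hc0] at h2
        rw [mul_comm c n]
        exact_mod_cast h2
  · intro H
    have := H 12 (by norm_num) (by norm_num) 3 (by norm_num) (by norm_num) 514 (by norm_num) 40
      (by norm_num) (by norm_num)
    revert this
    decide +kernel

end Pool.Agent.Results.MP_82795f_nt.TwiceFermat
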